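import Mathlib

set_option autoImplicit false
set_option maxHeartbeats 400000

namespace Pool.Agent.Results.MP_7ec995_an.Plane

open Filter Topology

/-- `ℂ³` with its Hermitian inner product -/
abbrev E := EuclideanSpace ℂ (Fin 3)

/-- angle between the complex lines spanned by `u` and `v` -/
noncomputable def ang (u v : E) : ℝ := Real.arccos (‖inner ℂ u v‖ / (‖u‖ * ‖v‖))

/-- the Fubini-Study distance on the complex projective plane -/
noncomputable def fs (x y : Projectivization ℂ E) : ℝ := ang x.rep y.rep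

/-- equicontinuity on `U` of a family of maps to the projective plane -/
def EquiOn {n : ℕ} (f : ℕ → (Fin n → ℂ) × ℂ → Projectivization ℂ E)
    (U : Set ((Fin n → ℂ) × ℂ)) : Prop :=
  ∀ p ∈ U, ∀ ε > 0, ∃ δ > 0, ∀ k, ∀ z ∈ U, dist z p < δ → fs (f k z) (f k p) < ε

/-- the unit polydisk of `ℂ^(n+1)` -/
def polydisk (n : ℕ) : Set ((Fin n → ℂ) × ℂ) := {p | (∀ i, ‖p.1 i‖ < 1) ∧ ‖p.2‖ < 1}

/-- the Hartogs figure -/
def hartogs (n : ℕ) (r : ℝ) : Set ((Fin n → ℂ) × ℂ) :=
  {p | (∀ i, ‖p.1 i‖ < 1 - r) ∧ ‖p.2‖ < 1} ∪ {p | (∀ i, ‖p.1 i‖ < 1) ∧ r < ‖p.2‖ ∧ ‖p.2‖ < 1}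

theorem fs_mk (u v : E) (hu : u ≠ 0) (hv : v ≠ 0) :
    fs (Projectivization.mk ℂ u hu) (Projectivization.mk ℂ v hv) = ang u v := by
  obtain ⟨a, ha⟩ := Projectivization.exists_smul_eq_mk_rep ℂ u hu
  obtain ⟨b, hb⟩ := Projectivization.exists_smul_eq_mk_rep ℂ v hv
  rw [fs, ← ha, ← hb, ang, ang, Units.smul_def, Units.smul_def, inner_smul_left, inner_smul_right,
    norm_mul, norm_mul, norm_smul, norm_smul, RCLike.norm_conj]
  congr 1
  have := norm_ne_zero_iff.2 a.ne_zero
  have := norm_ne_zero_iff.2 b.ne_zero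
  field_simp

theorem result (n : ℕ) (hn : 1 ≤ n) (r : ℝ) (hr : 0 < r) (hr1 : r < 1) :
    ∃ (F : ℕ → (Fin n → ℂ) × ℂ → E) (hF : ∀ k p, F k p ≠ 0), (∀ k, Differentiable ℂ (F k)) ∧
      EquiOn (fun k p => Projectivization.mk ℂ (F k p) (hF k p)) (hartogs n r) ∧
      ¬ EquiOn (fun k p => Projectivization.mk ℂ (F k p) (hF k p)) (polydisk n) := by
  let i0 : Fin n := ⟨0, hn⟩
  let a : ℝ := 1 - r / 2
  let G : ((Fin n → ℂ) × ℂ) × ℝ → E := fun q => !₂[q.1.1 i0 - a, q.1.2, (q.2 : ℂ)]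
  have hG : Continuous G := by fun_prop
  have h0 : ∀ k : ℕ, (0 : ℝ) < 1 / (k + 1) := fun k => by positivity
  have hF : ∀ (k : ℕ) p, G (p, 1 / (k + 1)) ≠ 0 := fun k p h =>
    Complex.ofReal_ne_zero.2 (h0 k).ne' (congrArg (fun v : E => v 2) h :)
  refine ⟨fun k p => G (p, 1 / (k + 1)), hF, fun k => ?_, fun p hp ε hε => ?_, fun h => ?_⟩
  · rw [differentiable_euclidean]
    intro i
    fin_cases i <;> simp [G] <;> fun_prop
  · have h1 : ∀ e : ℝ, G (p, e) ≠ 0 := by
      intro e h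
      have a1 : p.1 i0 - a = 0 := (congrArg (fun v : E => v 0) h :)
      have a2 : p.2 = 0 := (congrArg (fun v : E => v 1) h :)
      rcases hp with hp | hp
      · have := hp.1 i0
        rw [sub_eq_zero.1 a1, Complex.norm_real, Real.norm_of_nonneg (by simp only [a]; linarith)]
          at this
        simp only [a] at this
        linarith
      · have := hp.2.1
        rw [a2, norm_zero] at this
        linarith
    have h2 : ∀ᶠ z in 𝓝 p, ∀ e ∈ Set.Icc (0 : ℝ) 1, ang (G (z, e)) (G (p, e)) < ε := by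
      refine isCompact_Icc.eventually_forall_of_forall_eventually fun e _ => ?_
      have h3 : ContinuousAt (fun q : ((Fin n → ℂ) × ℂ) × ℝ => ang (G q) (G (p, q.2))) (p, e) := by
        refine Real.continuous_arccos.continuousAt.comp (ContinuousAt.div ?_ ?_ ?_)
        · exact (hG.inner (hG.comp (by fun_prop))).norm.continuousAt
        · exact (hG.norm.mul (hG.comp (by fun_prop)).norm).continuousAt
        · exact mul_ne_zero (norm_ne_zero_iff.2 (h1 e)) (norm_ne_zero_iff.2 (h1 e))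
      refine h3.eventually_lt continuousAt_const ?_
      have h4 := norm_ne_zero_iff.2 (h1 e)
      simp only [ang, inner_self_eq_norm_sq_to_K, norm_pow, RCLike.norm_ofReal, abs_norm]
      rwa [← sq, div_self (pow_ne_zero 2 h4), Real.arccos_one]
    obtain ⟨δ, hδ, h3⟩ := Metric.eventually_nhds_iff.1 h2
    refine ⟨δ, hδ, fun k z _ hz => ?_⟩
    rw [fs_mk]
    refine h3 hz _ ⟨(h0 k).le, ?_⟩
    rw [div_le_one (by positivity)]
    linarith [(Nat.cast_nonneg k : (0 : ℝ) ≤ k)]
  · have ha : ‖(a : ℂ)‖ < 1 := by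
      rw [Complex.norm_real, Real.norm_of_nonneg (by simp only [a]; linarith)]
      simp only [a]
      linarith
    obtain ⟨δ, hδ, h1⟩ := h (fun _ => a, 0) ⟨fun _ => ha, by simp⟩ 1 one_pos
    have hw : 0 < min δ 1 / 2 := by positivity
    have hw1 : min δ 1 / 2 < δ := by linarith [min_le_left δ 1]
    have hw2 : min δ 1 / 2 < 1 := by linarith [min_le_right δ 1]
    generalize min δ 1 / 2 = w at hw hw1 hw2
    obtain ⟨k, hk⟩ := exists_nat_one_div_lt (half_pos hw)
    have h2 := h1 k (fun _ => a, w) ⟨fun _ => ha, by simpa [abs_of_pos hw] using hw2⟩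
      (by simpa [Prod.dist_eq, hδ, abs_of_pos hw] using hw1)
    rw [fs_mk] at h2
    beta_reduce at h2
    have he := h0 k
    generalize (1 / (k + 1) : ℝ) = e at hk h2 he
    have h3 : ‖inner ℂ (G ((fun _ => a, w), e)) (G ((fun _ => a, 0), e))‖ = e * e := by
      simp [G, PiLp.inner_apply, Fin.sum_univ_three]
    have h4 : w ≤ ‖G ((fun _ => a, w), e)‖ := by
      simpa [G, abs_of_pos hw] using PiLp.norm_apply_le (G ((fun _ => a, w), e)) 1
    have h5 : e ≤ ‖G ((fun _ => a, 0), e)‖ := by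
      simpa [G, abs_of_pos he] using PiLp.norm_apply_le (G ((fun _ => a, 0), e)) 2
    have h6 : Real.arccos (1 / 2) ≤ ang (G ((fun _ => a, w), e)) (G ((fun _ => a, 0), e)) := by
      refine Real.arccos_le_arccos ?_
      rw [h3, div_le_iff₀ (mul_pos (hw.trans_le h4) (he.trans_le h5))]
      nlinarith [mul_le_mul h4 h5 he.le (norm_nonneg _)]
    rw [← Real.cos_pi_div_three, Real.arccos_cos (by positivity) (by linarith [Real.pi_pos])] at h6
    linarith [Real.pi_gt_three]

end Pool.Agent.Results.MP_7ec995_an.Plane
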